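import Pool.Agent.H471.ZP.Ord

set_option autoImplicit false

/-!
# MP_3d0d30_nt: the bounds of Q2, and the exact order, for mixed moments of every real order

For `j < k` let `0 < η_j ≤ θ_j ≤ D_j` be real, `m_j ≥ 0` integers, with `η_j < θ_j` or `m_j ≥ 1`, let `y_j ≥ 0` be ARBITRARY
measurable functions with `y_j(t) + t ^ {θ_j} ≍ t ^ {D_j}`, and put

`u_j(t) = y_j(t) + a_j t ^ {θ_j} + b_j t ^ {η_j} / (log t) ^ {m_j}`.

Let `k < κ ≤ k + 2` be real. The mixed moment of order `2κ` is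

`M(T) = ∫_2^T |ζ(1/2 + it)| ^ (2(κ - k)) ∏_j |ζ(1/2 + i u_j(t))| ² dt`.

(1) If `∑_j (D_j - θ_j) + 1 - e + max (0, (2(κ - k) - 2) / 3) < 1`, where `e ≤ 1` and `e ≤ η_j` for all `j`, then for almost all
    `a_j > 0`, `b_j`:
    * `M(T) ~ (∏_j D_j) (log T) ^ k ∫_2^T |ζ(1/2 + it)| ^ (2(κ - k)) dt`: the factors are asymptotically independent;
    * `M(T)` lies between constant multiples of `T (log T) ^ ((κ - k) ² + k)`.

(2) If `k ≥ 1` and `∑_j (D_j - θ_j) + 1 - e < 1/3` then for almost all `a_j > 0`, `b_j`, for ALL real `k < κ ≤ k + 2` at once and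
    every `ε > 0`: `M(T) ≤ ε T (log T) ^ (κ²)` for all large `T`. So the inequality of Q2 holds, with the leading constant
    `1`, for the mixed moments of every real order `2κ ≥ 4`, `T ≥ T_0`, as soon as one or more of the factors are squares at
    generic heights, such as `u(t) = t + a t ^ θ + b t ^ θ / log t`, `θ > 5/6` (for one height).

The proof: the theorem on generic heights with arbitrary weights of given mean square (see
`MP_07318d_nt.SquareRootGenericHeights`, `MP_973905_nt.RealOrdersGenericHeights`) with the weight `|ζ(1/2 + it)| ^ λ`,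
and the order of magnitude of the moments of real order `λ ≤ 4`, which is the theorem of Heap, Radziwiłł and
Soundararajan; in Lean it is contained in the modules of `MP_fa2474_nt.TotalOrderFourEveryPolynomial` (helper469).
-/

namespace Pool.Agent.Results.MP_3d0d30_nt.MixedMomentsAllRealOrders

open MeasureTheory Set Filter Topology

/-- `|ζ(1/2 + iu)|` -/
noncomputable def Z (u : ℝ) : ℝ := ‖riemannZeta (1 / 2 + Complex.I * u)‖

/-- the heights `u_j(t) = y_j(t) + a_j t ^ {θ_j} + b_j t ^ {η_j} / (log t) ^ {m_j}`, `c_j = (a_j, b_j)` -/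
noncomputable def height {k : ℕ} (θ η : Fin k → ℝ) (m : Fin k → ℕ) (y : Fin k → ℝ → ℝ) (c : Fin k → ℝ × ℝ)
    (j : Fin k) (t : ℝ) : ℝ :=
  y j t + (c j).1 * t ^ θ j + (c j).2 * (t ^ η j / Real.log t ^ m j)

/-- the mixed moment of order `2κ` -/
noncomputable def mixed {k : ℕ} (θ η : Fin k → ℝ) (m : Fin k → ℕ) (y : Fin k → ℝ → ℝ) (c : Fin k → ℝ × ℝ)
    (κ T : ℝ) : ℝ :=
  ∫ t in (2:ℝ)..T, Z t ^ (2 * (κ - k)) * ∏ j, Z (height θ η m y c j t) ^ 2

/-- **mixed moments of all real orders** -/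
theorem result {k : ℕ} (θ η D : Fin k → ℝ) (m : Fin k → ℕ) (hη : ∀ j, 0 < η j) (hηθ : ∀ j, η j ≤ θ j)
    (hm : ∀ j, η j < θ j ∨ 1 ≤ m j) (hD : ∀ j, θ j ≤ D j)
    (y : Fin k → ℝ → ℝ) (hym : ∀ j, Measurable (y j)) (Y : ℝ)
    (hy : ∀ j t, 2 ≤ t → 0 ≤ y j t ∧ y j t ≤ Y * t ^ D j) (c0 : ℝ) (hc0 : 0 < c0)
    (hlow : ∀ j t, 2 ≤ t → c0 * t ^ D j ≤ y j t + t ^ θ j)
    (e : ℝ) (he1 : e ≤ 1) (he : ∀ j, e ≤ η j) :
    -- (1) asymptotic independence and exact order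
    (∀ κ : ℝ, k < κ → κ ≤ k + 2 → ∑ j, (D j - θ j) + (1 - e) + max 0 ((2 * (κ - k) - 2) / 3) < 1 →
      ∀ᵐ c : Fin k → ℝ × ℝ, (∀ j, 0 < (c j).1) →
        (∀ T : ℝ, 2 ≤ T → IntervalIntegrable
          (fun t => Z t ^ (2 * (κ - k)) * ∏ j, Z (height θ η m y c j t) ^ 2) volume 2 T) ∧
        Tendsto (fun T : ℝ => mixed θ η m y c κ T / (Real.log T ^ k * ∫ t in (2:ℝ)..T, Z t ^ (2 * (κ - k)))) atTop
          (𝓝 (∏ j, D j)) ∧
        ∃ c1 C1 : ℝ, 0 < c1 ∧ 0 < C1 ∧ ∀ᶠ T : ℝ in atTop,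
          c1 * (T * Real.log T ^ ((κ - k) ^ 2 + k)) ≤ mixed θ η m y c κ T ∧
          mixed θ η m y c κ T ≤ C1 * (T * Real.log T ^ ((κ - k) ^ 2 + k))) ∧
    -- (2) the inequality of Q2 for all real orders at once
    (1 ≤ k → ∑ j, (D j - θ j) + (1 - e) < 1 / 3 →
      ∀ᵐ c : Fin k → ℝ × ℝ, (∀ j, 0 < (c j).1) → ∀ κ : ℝ, k < κ → κ ≤ k + 2 → ∀ ε : ℝ, 0 < ε →
        ∀ᶠ T : ℝ in atTop, mixed θ η m y c κ T ≤ ε * (T * Real.log T ^ (κ ^ 2))) := by
  have ez : ∀ t : ℝ, Pool.Agent.Helper156_SP.az t = Z t := Pool.Agent.H471.ZP.az_eq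
  constructor
  · intro κ hκ hκ2 hδ
    filter_upwards [Pool.Agent.H471.ZP.ord_main θ η D m (2 * (κ - k)) (by linarith) (by linarith) hη hηθ hm hD y hym Y
      hy c0 hc0 hlow e he1 he hδ] with c hc hj
    obtain ⟨h1, h2, ⟨c1, C1, hc1, hC1, h3⟩, -⟩ := hc hj
    simp only [ez] at h1 h2 h3
    refine ⟨h1, h2, c1, C1, hc1, hC1, ?_⟩
    rw [show (2 * (κ - k)) ^ 2 / 4 = (κ - k) ^ 2 by ring] at h3
    exact h3
  · intro hk hδ
    filter_upwards [Pool.Agent.H471.ZP.ord_all θ η D m hη hηθ hm hD y hym Y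
      hy c0 hc0 hlow e he1 he hk hδ] with c hc hj
    intro κ hκ hκ2 ε hε
    have h1 := hc hj (2 * (κ - k)) (by linarith) (by linarith) ε hε
    simp only [ez] at h1
    rw [show 2 * (κ - k) / 2 + (k:ℝ) = κ by ring] at h1
    exact h1

end Pool.Agent.Results.MP_3d0d30_nt.MixedMomentsAllRealOrders
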