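import Pool.Agent.H476.OM8

/-!
# Moments of zeta and one-sided moments of one section

Let `Z(t) = |ζ(1/2 + it)|`, let `P_N(t) = ∑_{n ≤ N} n^(-1/2 - it)` and let
`Q(t) = P_N(t) + ∑_j c_j e^(-i λ_j t)` be any continuation of this section of the zeta series by
finitely many terms with ARBITRARY real frequencies `λ_j ≥ log N` and arbitrary complex
coefficients. Write `x⁺ = max(x, 0)`. All results are unconditional.

* (inequality) Let `A ≥ 0`. There are `K`, `C`, `T₀` such that for all `T ≥ T₀`, all real `p ≥ 1` with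
  `4 A p ≤ log T`, all `√(2T) exp(K √(log 2T)) ≤ N ≤ T^A`, all such `Q` with `∑ |c_j| ≤ T^A` and all
  `|u| = 1`
  `∫_T^{2T} Z^p ≤ (C log T)^p (∫_{T - log T}^{2T + log T} ((Re u Q(t))⁺)^p dt + T)`.
  The constants do not depend on `p`; the range `p ≤ log T / (4A)` contains all the orders that
  matter in the problem for large `T` (they are at most of size `√(log T / log log T)`).
* (lower bound) Hence, for every real `k > 2`, with some `c₀ > 0` and under the same conditions,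
  `∫_{T - log T}^{2T + log T} ((Re u Q(t))⁺)^(2k) dt ≥ c₀ T (log T)^(k² - 2k)`: no choice of the terms
  beyond `√(2T) exp(K √(log 2T))` can make the one-sided moment smaller (for `k = 3`: `c₀ T (log T)^3`).
* (extreme values) For every `ε > 0`, with some `c₀ > 0` and under the same conditions, for every
  `T^ε ≤ H ≤ T` there is `t` in `[T, T + H]` with `Re u Q(t) ≥ exp (c₀ √(log T / log log T))`: in no short
  interval and in no direction can the real part be kept smaller by the choice of the terms beyond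
  `√(2T) exp(K √(log 2T))`.
* (converse) If `∫_0^T Z^p = O(T^(μ + ε))` for all `ε > 0` (`p, μ ≥ 1`), then
  `∫_T^{4T} |P_N|^p ≤ C (T^(μ + ε) + T (√N / T)^p)` for all `1 ≤ N ≤ T^A`.
* (criteria) Let `p, μ ≥ 1`, `1/2 < θ ≤ 2 + 2 (μ - 1) / p`, `|u| = 1`. Then
  `∫_0^T Z^p = O(T^(μ + ε))` for all `ε > 0` is equivalent to the same bound for
  `∫_T^{4T} |P_N|^p`, `N = [T^θ]`, and also to the same bound for `∫_T^{4T} ((Re u P_N)⁺)^p`, and also
  to the existence, for each large `T`, of ONE continuation `Q` of ONE section of length at least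
  `T^(1/2 + δ)` and ONE `u` with `∫_T^{4T} ((Re u Q)⁺)^p ≤ T^(μ + ε)`.
* In particular, for every real `k ≥ 1/2` and `1/2 < θ ≤ 2`:
  `∫_0^T Z^(2k) = O(T^(1 + ε))` if and only if the positive part of the cosine sum
  `∑_{n ≤ T^θ} n^(-1/2) cos(t log n)` has its `2k`-th moment over `[T, 4T]` of size `O(T^(1 + ε))`.

Proof. The pointwise inequality `Z(t) ≤ log t (∫ (Re u Q(t + v))⁺ e^(-v²/2) dv + K')` of
`Pool.Agent.H476.LS.main_ineq` is raised to the power `p` (Jensen for the Gaussian) and integrated.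
The lower bound follows with the lower bound `c T (log T)^(k²)` for the moments of zeta, which is in the
library (`RobustLowerBounds`, known: Radziwill and Soundararajan), the extreme values with the extreme
values of zeta in short intervals, which are in the library (`HighMomentsInSectors`).
Conversely, `P_N` is up to `O(√N / T)` a mean of zeta on the critical line with a weight
`(1 + |y|/T)^(-k) (1 + |y|)^(-1)` (contour integral with a smooth cutoff of relative width `1/T`),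
and Jensen's and Tonelli's theorems apply.
-/

set_option autoImplicit false

open Complex MeasureTheory

namespace Pool.Agent.Results.MP_3d0d30_nt.OneSidedMoments

/-- the absolute value of zeta on the critical line -/
noncomputable def Z (t : ℝ) : ℝ := ‖riemannZeta (1 / 2 + (t : ℂ) * I)‖

/-- the section of length `N` of the zeta series on the critical line -/
noncomputable def P (N : ℕ) (t : ℝ) : ℂ :=
  ∑ n ∈ Finset.Icc 1 N, (n : ℂ) ^ (-(1 / 2 + (t : ℂ) * I))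

/-- the section with `J` additional terms `c j * exp (-i * lam j * t)` -/
noncomputable def Q (N J : ℕ) (c : Fin J → ℂ) (lam : Fin J → ℝ) (t : ℝ) : ℂ :=
  P N t + ∑ j, c j * Complex.exp (-((lam j : ℂ) * (t : ℂ) * I))

/-- `∫_0^T |ζ(1/2 + it)|^p dt = O(T^(μ + ε))` for every `ε > 0` -/
def MomentExponent (p μ : ℝ) : Prop :=
  ∀ ε : ℝ, 0 < ε → ∃ C : ℝ, ∀ T : ℝ, 1 ≤ T → ∫ t in (0 : ℝ)..T, Z t ^ p ≤ C * T ^ (μ + ε)

/-- the same bound for the `p`-th moment over `[T, 4T]` of the section of length `⌊T^θ⌋` -/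
def SectionMoment (p μ θ : ℝ) : Prop :=
  ∀ ε : ℝ, 0 < ε → ∃ C : ℝ, ∀ T : ℝ, 1 ≤ T → ∫ t in T..(4 * T), ‖P ⌊T ^ θ⌋₊ t‖ ^ p ≤ C * T ^ (μ + ε)

/-- the same bound for the positive part of the real part of this section in the direction `u` -/
def OneSidedMoment (p μ θ : ℝ) (u : ℂ) : Prop :=
  ∀ ε : ℝ, 0 < ε → ∃ C : ℝ, ∀ T : ℝ, 1 ≤ T →
    ∫ t in T..(4 * T), max (u * P ⌊T ^ θ⌋₊ t).re 0 ^ p ≤ C * T ^ (μ + ε)

/-- a one-sided moment bound, for each large `T`, for some continuation of some section of length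
at least `T^(1/2 + δ)` in some direction -/
def SomeContinuation (p μ : ℝ) : Prop :=
  ∀ ε : ℝ, 0 < ε → ∃ δ A T₀ : ℝ, 0 < δ ∧ ∀ T : ℝ, T₀ ≤ T →
    ∃ (N J : ℕ) (c : Fin J → ℂ) (lam : Fin J → ℝ) (u : ℂ), T ^ (1 / 2 + δ) ≤ N ∧ (N : ℝ) ≤ T ^ A ∧
      (∀ j, Real.log N ≤ lam j) ∧ ∑ j, ‖c j‖ ≤ T ^ A ∧ ‖u‖ = 1 ∧
      ∫ t in T..(4 * T), max (u * Q N J c lam t).re 0 ^ p ≤ T ^ (μ + ε)

theorem P_eq : P = Pool.Agent.H476.LS.P := by
  funext N t
  exact (Pool.Agent.H476.LS.P_eq_Icc N t).symm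

theorem Q_eq : Q = Pool.Agent.H476.LS.Q := by
  funext N J c lam t
  unfold Q Pool.Agent.H476.LS.Q
  rw [P_eq]

theorem mom_iff (p μ : ℝ) : MomentExponent p μ ↔ Pool.Agent.H476.OM.MomExp p μ := Iff.rfl

theorem sec_iff (p μ θ : ℝ) : SectionMoment p μ θ ↔ Pool.Agent.H476.OM.SecMom p μ θ := by
  unfold SectionMoment Pool.Agent.H476.OM.SecMom
  rw [P_eq]

theorem one_iff (p μ θ : ℝ) (u : ℂ) :
    OneSidedMoment p μ θ u ↔ Pool.Agent.H476.OM.OneSidedMom p μ θ u := by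
  unfold OneSidedMoment Pool.Agent.H476.OM.OneSidedMom
  rw [P_eq]

theorem some_iff (p μ : ℝ) : SomeContinuation p μ ↔ Pool.Agent.H476.OM.SomeCont p μ := by
  unfold SomeContinuation Pool.Agent.H476.OM.SomeCont
  rw [Q_eq]

theorem result :
    -- (1) the inequality
    (∀ A : ℝ, 0 ≤ A → ∃ K C T₀ : ℝ, ∀ T : ℝ, T₀ ≤ T → ∀ p : ℝ, 1 ≤ p → 4 * A * p ≤ Real.log T →
      ∀ (N J : ℕ) (c : Fin J → ℂ) (lam : Fin J → ℝ),
        Real.sqrt (2 * T) * Real.exp (K * Real.sqrt (Real.log (2 * T))) ≤ N → (N : ℝ) ≤ T ^ A →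
        (∀ j, Real.log N ≤ lam j) → ∑ j, ‖c j‖ ≤ T ^ A → ∀ u : ℂ, ‖u‖ = 1 →
        ∫ t in T..(2 * T), Z t ^ p ≤ (C * Real.log T) ^ p *
          ((∫ t in (T - Real.log T)..(2 * T + Real.log T), max (u * Q N J c lam t).re 0 ^ p) + T)) ∧
    -- (2) the one-sided moments of every continuation of every section are large
    (∀ A k : ℝ, 0 ≤ A → 2 < k → ∃ K c₀ T₀ : ℝ, 0 < c₀ ∧ ∀ T : ℝ, T₀ ≤ T →
      ∀ (N J : ℕ) (c : Fin J → ℂ) (lam : Fin J → ℝ),
        Real.sqrt (2 * T) * Real.exp (K * Real.sqrt (Real.log (2 * T))) ≤ N → (N : ℝ) ≤ T ^ A →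
        (∀ j, Real.log N ≤ lam j) → ∑ j, ‖c j‖ ≤ T ^ A → ∀ u : ℂ, ‖u‖ = 1 →
        c₀ * T * Real.log T ^ (k ^ 2 - 2 * k) ≤
          ∫ t in (T - Real.log T)..(2 * T + Real.log T), max (u * Q N J c lam t).re 0 ^ (2 * k)) ∧
    -- (3) extreme values of the real part of every continuation of every section
    (∀ A ε : ℝ, 0 ≤ A → 0 < ε → ∃ K c₀ T₀ : ℝ, 0 < c₀ ∧ ∀ T : ℝ, T₀ ≤ T →
      ∀ H : ℝ, T ^ ε ≤ H → H ≤ T → ∀ (N J : ℕ) (c : Fin J → ℂ) (lam : Fin J → ℝ),
        Real.sqrt (2 * T) * Real.exp (K * Real.sqrt (Real.log (2 * T))) ≤ N → (N : ℝ) ≤ T ^ A →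
        (∀ j, Real.log N ≤ lam j) → ∑ j, ‖c j‖ ≤ T ^ A → ∀ u : ℂ, ‖u‖ = 1 →
        ∃ t : ℝ, T ≤ t ∧ t ≤ T + H ∧
          Real.exp (c₀ * Real.sqrt (Real.log T / Real.log (Real.log T))) ≤
            (u * Q N J c lam t).re) ∧
    -- (4) the converse for all sections
    (∀ p μ : ℝ, 1 ≤ p → 1 ≤ μ → MomentExponent p μ → ∀ A ε : ℝ, 0 < ε → ∃ C : ℝ,
      ∀ T : ℝ, 1 ≤ T → ∀ N : ℕ, 1 ≤ N → (N : ℝ) ≤ T ^ A →
        ∫ t in T..(4 * T), ‖P N t‖ ^ p ≤ C * (T ^ (μ + ε) + T * (Real.sqrt N / T) ^ p)) ∧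
    -- (5) the criteria
    (∀ p μ θ : ℝ, 1 ≤ p → 1 ≤ μ → 1 / 2 < θ → θ ≤ 2 + 2 * (μ - 1) / p →
      (MomentExponent p μ ↔ SectionMoment p μ θ) ∧
      ∀ u : ℂ, ‖u‖ = 1 → (MomentExponent p μ ↔ OneSidedMoment p μ θ u)) ∧
    (∀ p μ : ℝ, 1 ≤ p → 1 ≤ μ → (MomentExponent p μ ↔ SomeContinuation p μ)) ∧
    -- (6) the order `T^(1 + ε)` of the `2k`-th moment and one cosine sum
    (∀ k θ : ℝ, 1 / 2 ≤ k → 1 / 2 < θ → θ ≤ 2 →
      ((∀ ε : ℝ, 0 < ε → ∃ C : ℝ, ∀ T : ℝ, 1 ≤ T →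
        ∫ t in (0 : ℝ)..T, ‖riemannZeta (1 / 2 + (t : ℂ) * I)‖ ^ (2 * k) ≤ C * T ^ (1 + ε)) ↔
       (∀ ε : ℝ, 0 < ε → ∃ C : ℝ, ∀ T : ℝ, 1 ≤ T →
        ∫ t in T..(4 * T), max (∑ n ∈ Finset.Icc 1 ⌊T ^ θ⌋₊, Real.cos (t * Real.log n) / Real.sqrt n)
          0 ^ (2 * k) ≤ C * T ^ (1 + ε)))) := by
  have crit : ∀ p μ θ : ℝ, 1 ≤ p → 1 ≤ μ → 1 / 2 < θ → θ ≤ 2 + 2 * (μ - 1) / p →
      (MomentExponent p μ ↔ SectionMoment p μ θ) ∧
      ∀ u : ℂ, ‖u‖ = 1 → (MomentExponent p μ ↔ OneSidedMoment p μ θ u) := by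
    intro p μ θ hp hμ hθ hθ2
    refine ⟨⟨fun h => ?_, fun h => ?_⟩, fun u hu => ⟨fun h => ?_, fun h => ?_⟩⟩
    · rw [sec_iff]
      exact Pool.Agent.H476.OM.secMom_of_momExp p μ θ hp hμ (by linarith) hθ2 h
    · rw [sec_iff] at h
      exact Pool.Agent.H476.OM.momExp_of_some p μ hp hμ
        (Pool.Agent.H476.OM.someCont_of_oneSidedMom p μ θ 1 hθ norm_one
          (Pool.Agent.H476.OM.oneSidedMom_of_secMom p μ θ 1 hp norm_one h))
    · rw [one_iff]
      exact Pool.Agent.H476.OM.oneSidedMom_of_secMom p μ θ u hp hu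
        (Pool.Agent.H476.OM.secMom_of_momExp p μ θ hp hμ (by linarith) hθ2 h)
    · rw [one_iff] at h
      exact Pool.Agent.H476.OM.momExp_of_some p μ hp hμ
        (Pool.Agent.H476.OM.someCont_of_oneSidedMom p μ θ u hθ hu h)
  refine ⟨?_, ?_, ?_, ?_, crit, ?_, ?_⟩
  · intro A hA
    obtain ⟨K, C, T₀, hK, hC, hT₀, h⟩ := Pool.Agent.H476.OM.moment_ineq A hA
    refine ⟨K, C, T₀, fun T hT p hp hpT N J c lam hN hNA hlam hc u hu => ?_⟩
    rw [Q_eq]
    refine h T hT p hp hpT N J c lam ?_ hNA hlam hc u hu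
    have hT0 : 0 < T := by linarith
    have h1 := Real.log_le_log (by positivity) hN
    rw [Real.log_mul (by positivity) (by positivity), Real.log_exp, Real.log_sqrt (by positivity)] at h1
    exact h1
  · intro A k hA hk
    obtain ⟨K, c₀, T₀, hc₀, hT₀, h⟩ := Pool.Agent.H476.OM.one_sided_lower A k hA hk
    refine ⟨K, c₀, T₀, hc₀, fun T hT N J c lam hN hNA hlam hc u hu => ?_⟩
    rw [Q_eq]
    refine h T hT N J c lam ?_ hNA hlam hc u hu
    have hT0 : 0 < T := by linarith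
    have h1 := Real.log_le_log (by positivity) hN
    rw [Real.log_mul (by positivity) (by positivity), Real.log_exp, Real.log_sqrt (by positivity)] at h1
    exact h1
  · intro A ε hA hε
    obtain ⟨K, c₀, T₀, hc₀, hT₀, h⟩ := Pool.Agent.H476.OM.extreme A ε hA hε
    refine ⟨K, c₀, T₀, hc₀, fun T hT H hH1 hH2 N J c lam hN hNA hlam hc u hu => ?_⟩
    rw [Q_eq]
    refine h T hT H hH1 hH2 N J c lam ?_ hNA hlam hc u hu
    have hT0 : 0 < T := by linarith
    have h1 := Real.log_le_log (by positivity) hN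
    rw [Real.log_mul (by positivity) (by positivity), Real.log_exp, Real.log_sqrt (by positivity)] at h1
    exact h1
  · intro p μ hp hμ hM A ε hε
    obtain ⟨C, hC, h⟩ := Pool.Agent.H476.OM.sec_mom p μ hp hμ hM A ε hε
    rw [P_eq]
    exact ⟨C, h⟩
  · intro p μ hp hμ
    refine ⟨fun h => ?_, fun h => ?_⟩
    · rw [some_iff]
      have h2 : (1 : ℝ) ≤ 2 + 2 * (μ - 1) / p := by
        have : 0 ≤ 2 * (μ - 1) / p := div_nonneg (by linarith) (by linarith)
        linarith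
      exact Pool.Agent.H476.OM.someCont_of_oneSidedMom p μ 1 1 (by norm_num) norm_one
        (Pool.Agent.H476.OM.oneSidedMom_of_secMom p μ 1 1 hp norm_one
          (Pool.Agent.H476.OM.secMom_of_momExp p μ 1 hp hμ (by norm_num) h2 h))
    · rw [some_iff] at h
      exact Pool.Agent.H476.OM.momExp_of_some p μ hp hμ h
  · intro k θ hk hθ hθ2
    have hcos : ∀ (N : ℕ) (t : ℝ), ∑ n ∈ Finset.Icc 1 N, Real.cos (t * Real.log n) / Real.sqrt n =
        (1 * P N t).re := by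
      intro N t
      rw [P_eq, one_mul, Pool.Agent.H476.LS.P_re]
      symm
      rw [Finset.sum_bij (fun n _ => n + 1)]
      · intro n hn
        rw [Finset.mem_range] at hn
        rw [Finset.mem_Icc]; omega
      · intro a _ b _ h
        omega
      · intro m hm
        rw [Finset.mem_Icc] at hm
        exact ⟨m - 1, by rw [Finset.mem_range]; omega, by omega⟩
      · intro n _
        push_cast
        rfl
    have h1 := (crit (2 * k) 1 θ (by linarith) le_rfl hθ (by simpa using hθ2)).2 1 norm_one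
    simp_rw [hcos]
    exact h1

end Pool.Agent.Results.MP_3d0d30_nt.OneSidedMoments
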